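import Mathlib
import Pool.Agent.Helper54.TotAsymp

/-!
# For almost all primes `p` the set `A_p` is `{p, 2p}`, of natural density zero
-/

set_option autoImplicit false

namespace Pool.Agent.Helper54.Kept.AlmostAllPrimesA02e6b

open Filter Pool.Agent.Helper54

noncomputable section

/-- The map `n ↦ φ(n) + 1`. -/
def f (n : ℕ) : ℕ := n.totient + 1

/-- The set `A_p` of positive integers whose orbit under `f` reaches `p`. -/
def A (p : ℕ) : Set ℕ := {n | 1 ≤ n ∧ ∃ i : ℕ, f^[i] n = p}

/-- The number of elements of `S` in `[1, x]`. -/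
def count (S : Set ℕ) (x : ℕ) : ℕ := (S ∩ Set.Icc 1 x).ncard

/-- `S` has natural density `d`. -/
def HasNaturalDensity (S : Set ℕ) (d : ℝ) : Prop :=
  Tendsto (fun x : ℕ => (count S x : ℝ) / x) atTop (nhds d)

theorem count_mono {S T : Set ℕ} (h : S ⊆ T) (x : ℕ) : count S x ≤ count T x :=
  Set.ncard_le_ncard (Set.inter_subset_inter_left _ h) ((Set.finite_Icc 1 x).inter_of_right _)

theorem density_pair (p : ℕ) : HasNaturalDensity {p, 2 * p} 0 := by
  have h1 : ∀ x : ℕ, (count {p, 2 * p} x : ℝ) ≤ 2 := by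
    intro x
    have h3 : count {p, 2 * p} x ≤ ({p, 2 * p} : Set ℕ).ncard :=
      Set.ncard_le_ncard Set.inter_subset_left (Set.toFinite _)
    have h2 : ({p, 2 * p} : Set ℕ).ncard ≤ 2 := by
      have := Set.ncard_insert_le p {2 * p}
      rw [Set.ncard_singleton] at this
      exact this
    exact_mod_cast h3.trans h2
  have h2 : Tendsto (fun x : ℕ => (2 : ℝ) / x) atTop (nhds 0) :=
    tendsto_const_nhds.div_atTop tendsto_natCast_atTop_atTop
  refine squeeze_zero (fun x => by positivity) (fun x => ?_) h2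
  exact div_le_div_of_nonneg_right (h1 x) (by positivity)

/-- The primes `p` for which `A_p = {p, 2p}` (in particular `A_p` has natural density `0`)
have relative density one among all primes. -/
theorem result :
    Tendsto (fun x : ℕ =>
      (count {p | p.Prime ∧ A p = {p, 2 * p} ∧ HasNaturalDensity (A p) 0} x : ℝ) /
        (count {p | p.Prime} x : ℝ)) atTop (nhds 1) := by
  classical
  have hπ : ∀ x : ℕ, count {p | p.Prime} x = (Nat.primesLE x).card := by
    intro x
    unfold count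
    rw [← Set.ncard_coe_finset]
    congr 1
    ext p
    simp only [Set.mem_inter_iff, Set.mem_ofPred_eq, Set.mem_Icc, Finset.mem_coe,
      Nat.mem_primesLE]
    constructor
    · rintro ⟨h3, _, h2⟩
      exact ⟨h2, h3⟩
    · rintro ⟨h2, h3⟩
      exact ⟨h3, h3.pos, h2⟩
  set G : Set ℕ := {p | p.Prime ∧ A p = {p, 2 * p} ∧ HasNaturalDensity (A p) 0} with hG
  have hGle : ∀ x : ℕ, count G x ≤ count {p | p.Prime} x := fun x =>
    count_mono (fun p hp => hp.1) x
  have hsplit : ∀ x : ℕ, count {p | p.Prime} x ≤ count G x + ((Tot.exc x).card + 1) := by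
    intro x
    have hsub : {p | p.Prime} ∩ Set.Icc 1 x ⊆
        (G ∩ Set.Icc 1 x) ∪ (((Tot.exc x ∪ {2} : Finset ℕ)) : Set ℕ) := by
      rintro p ⟨hp, hpx⟩
      rw [Set.mem_ofPred_eq] at hp
      rw [Set.mem_union, Finset.mem_coe, Finset.mem_union, Finset.mem_singleton]
      by_cases hex : p ∈ Tot.exc x
      · exact Or.inr (Or.inl hex)
      by_cases hp2 : p = 2
      · exact Or.inr (Or.inr hp2)
      left
      have hA : A p = {p, 2 * p} := by
        refine Tot.A_eq_of_forall hp hp2 fun q hq => ?_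
        by_contra hcon
        push Not at hcon
        exact hex (Tot.mem_exc.2 ⟨⟨hpx.2, hp⟩, q, hq, hcon.1, hcon.2⟩)
      refine ⟨⟨hp, hA, ?_⟩, hpx⟩
      rw [hA]
      exact density_pair p
    have hfin : ((G ∩ Set.Icc 1 x) ∪ (((Tot.exc x ∪ {2} : Finset ℕ)) : Set ℕ)).Finite :=
      ((Set.finite_Icc 1 x).inter_of_right _).union (Finset.finite_toSet _)
    refine (Set.ncard_le_ncard hsub hfin).trans ((Set.ncard_union_le _ _).trans ?_)
    refine Nat.add_le_add_left ?_ _
    rw [Set.ncard_coe_finset]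
    refine (Finset.card_union_le _ _).trans ?_
    simp
  rw [Metric.tendsto_atTop]
  intro ε hε
  have h1 := (Tot.exc_small (ε / 4) (by positivity)).and (Tot.eventually_pi_ge.and
    ((Nat.tendsto_primeCounting.eventually_gt_atTop (⌈4 / ε⌉₊)).and (eventually_ge_atTop 3)))
  obtain ⟨N, hN⟩ := eventually_atTop.1 h1
  refine ⟨N, fun x hx => ?_⟩
  obtain ⟨h2, h3, h4, h5⟩ := hN x hx
  rw [← Nat.primesLE_card_eq_primeCounting] at h4
  have h6 : (4 / ε : ℝ) < ((Nat.primesLE x).card : ℝ) :=
    (Nat.le_ceil _).trans_lt (by exact_mod_cast h4)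
  have hπ0 : (0 : ℝ) < ((Nat.primesLE x).card : ℝ) := lt_trans (by positivity) h6
  have h7 : (((Nat.primesLE x).card : ℕ) : ℝ) ≤ count G x + (((Tot.exc x).card : ℝ) + 1) := by
    have := hsplit x
    rw [hπ] at this
    exact_mod_cast this
  have h8 : ((count G x : ℕ) : ℝ) ≤ ((Nat.primesLE x).card : ℝ) := by
    have := hGle x
    rw [hπ] at this
    exact_mod_cast this
  rw [hπ, Real.dist_eq, abs_sub_comm, abs_of_nonneg]
  · rw [sub_lt_iff_lt_add, ← sub_lt_iff_lt_add', lt_div_iff₀ hπ0]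
    have h9 : ((Tot.exc x).card : ℝ) ≤ ε / 2 * ((Nat.primesLE x).card : ℝ) := by
      calc ((Tot.exc x).card : ℝ) ≤ ε / 4 * (x / Real.log x) := h2
        _ ≤ ε / 4 * (2 * ((Nat.primesLE x).card : ℝ)) := by gcongr
        _ = _ := by ring
    rw [div_lt_iff₀ hε] at h6
    nlinarith
  · rw [sub_nonneg, div_le_one hπ0]
    exact h8

end

end Pool.Agent.Helper54.Kept.AlmostAllPrimesA02e6b
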