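import Pool.Agent.Helper32.Grimm.Hall

/-!
# Every block has a Grimm assignment after the removal of a few members

If `(k-1)! < n^(D+1)`, then at most `D` members have to be removed from the block
`n, ..., n+k-1` such that the remaining members have pairwise distinct prime divisors.
-/

set_option autoImplicit false

open Pool.Agent.Helper32.Grimm in
theorem Pool.Agent.Results.MP_fced2d_nt.SmallDefect.result (n k D : ℕ) (hn : 2 ≤ n)
    (hD : (k - 1).factorial < n ^ (D + 1)) :
    ∃ T ⊆ Finset.range k, k ≤ T.card + D ∧ ∃ f : ℕ → ℕ,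
      (∀ i ∈ T, (f i).Prime ∧ f i ∣ n + i) ∧ ∀ i ∈ T, ∀ j ∈ T, f i = f j → i = j :=
  deficiency n k D hn hD
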